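import Pool.Agent.Helper99.NQ.Defs
import Pool.Agent.Helper99.NQ.Hit

/-!
# NQ, piece Q3a: the two directions
-/

set_option autoImplicit false
set_option linter.unusedSectionVars false

namespace Pool.Agent.Helper74.NQ

open Finset Pool.Agent.Helper19.NF Pool.Agent.Helper74.NW Pool.Agent.Helper99.NQ
open Pool.Agent.Helper74.NE (fine fine_apply)

/-! ## Averages -/

theorem average {G Y : Type} [AddGroup G] [Fintype G] [Fintype Y] [Nonempty Y] (τ : Y → G) (P : G → Prop)
    [DecidablePred P] (c : ℝ)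
    (h : ∀ b, ((univ.filter (fun y => P (b + τ y))).card : ℝ) ≤ c * Fintype.card Y) :
    ((univ.filter P).card : ℝ) ≤ c * Fintype.card G := by
  have h1 : ∀ y, (univ.filter (fun b => P (b + τ y))).card = (univ.filter P).card := by
    intro y
    refine card_bij' (fun b _ => b + τ y) (fun b _ => b - τ y) ?_ ?_ ?_ ?_
    · intro b hb
      rw [mem_filter] at hb ⊢
      exact ⟨mem_univ _, hb.2⟩
    · intro b hb
      rw [mem_filter] at hb ⊢
      refine ⟨mem_univ _, ?_⟩
      rw [sub_add_cancel]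
      exact hb.2
    · intro b _
      exact add_sub_cancel_right b (τ y)
    · intro b _
      exact sub_add_cancel b (τ y)
  have h2 : ∑ b, (univ.filter (fun y => P (b + τ y))).card = ∑ y, (univ.filter (fun b => P (b + τ y))).card := by
    simp_rw [card_filter]
    exact sum_comm
  simp_rw [h1] at h2
  rw [sum_const, card_univ, smul_eq_mul] at h2
  have h3 : (∑ b, ((univ.filter (fun y => P (b + τ y))).card : ℝ)) ≤ ∑ _b : G, c * Fintype.card Y :=
    sum_le_sum fun b _ => h b
  rw [← Nat.cast_sum, h2, sum_const, card_univ, nsmul_eq_mul, Nat.cast_mul] at h3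
  have h4 : (0 : ℝ) < Fintype.card Y := Nat.cast_pos.2 Fintype.card_pos
  refine le_of_mul_le_mul_left ?_ h4
  calc (Fintype.card Y : ℝ) * (univ.filter P).card ≤ Fintype.card G * (c * Fintype.card Y) := h3
    _ = Fintype.card Y * (c * Fintype.card G) := by ring

theorem card_filter_eq {α : Type} [Fintype α] (p : α → Prop) {inst : DecidablePred p} :
    (univ.filter p).card = Nat.card {a // p a} := by
  rw [Nat.card_eq_fintype_card, Fintype.card_subtype]

theorem hitting' {A ι Λ : Type} [AddCommGroup A] [Fintype A] [Fintype ι] [Fintype Λ] [Nonempty Λ]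
    [inst : DecidableEq (A × Λ)]
    (V1 V2 : (ι → A) → Finset (A × Λ)) (w₀ : ι → A) (μ ν : ℝ) (hμ : ν ≤ μ) (Q : (ι → A) × (ι → A) → Prop)
    (h1 : ∀ y, Q y → μ * Fintype.card (A × Λ) ≤ (V1 y.2 ∩ V2 y.1).card)
    (h2 : ∀ y, Q y → ∀ c, (Nat.card {l // (w₀ c + y.1 c + y.2 c, l) ∈ V1 y.2 ∩ V2 y.1} : ℝ) ≤ ν * Fintype.card Λ) :
    (Nat.card {y // Q y} : ℝ) * (1 + (μ - ν) / 2) ^ Fintype.card ι ≤
      2 * ((Fintype.card A : ℝ) ^ Fintype.card ι) ^ 2 := by
  have hi : ∀ (i1 i2 : DecidableEq (A × Λ)) (s t : Finset (A × Λ)),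
      (@Inter.inter _ (@Finset.instInter _ i1) s t) = @Inter.inter _ (@Finset.instInter _ i2) s t := by
    intro i1 i2 s t
    ext z
    simp only [Finset.mem_inter]
  have key := Pool.Agent.Helper99.NQ.hitting V1 V2 w₀ μ ν hμ
  refine le_trans (mul_le_mul_of_nonneg_right (Nat.cast_le.2 ?_) (pow_nonneg (by linarith) _)) key
  refine Nat.card_le_card_of_injective (fun y : {y // Q y} => ⟨y.1, ?_, fun c => ?_⟩) ?_
  · refine (h1 y.1 y.2).trans (le_of_eq ?_)
    exact congrArg (fun s : Finset (A × Λ) => (s.card : ℝ)) (hi _ _ _ _)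
  · refine le_trans (le_of_eq ?_) (h2 y.1 y.2 c)
    rw [card_filter_eq]
    refine congrArg Nat.cast (Nat.card_congr (Equiv.subtypeEquivRight fun l => ?_))
    rw [hi _ inst]
  · intro y y' h
    exact Subtype.ext (Subtype.mk.inj h)

section net

variable {n D m d : ℕ} [NeZero m] {F B : Type} [Field F] [Fintype F] [AddCommGroup B] [Module F B] [Fintype B]

theorem word_add (y z : Word D m B → F) : word (y + z) = word y + word z := by
  unfold word
  rw [← sum_add_distrib]
  exact sum_congr rfl fun l _ => add_smul _ _ _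

theorem lam_add (g : Fin D → Equiv.Perm (Fin n)) (x y : Ch n D m F B) (v : Fin n × Fin m) :
    lam g (x + y) v = lam g x v + lam g y v := by
  unfold lam
  rw [← sum_add_distrib]
  refine sum_congr rfl fun c _ => ?_
  rw [Pi.add_apply, word_add, Pi.add_apply]

open Classical in
theorem word_flip (g : Fin D → Equiv.Perm (Fin n)) (h1 : Fin n → Fin D × Fin m) (b : Fin n → Fin d → Word D m B)
    (e : Fin n → Fin d → F) (p : Fin n × Fin m) (c : Fin D × Fin m) :
    word (flip g h1 b e p) c = ∑ u, if pos g h1 u = p then ∑ j, e u j • b u j c else 0 := by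
  have h2 : word (flip g h1 b e p) = ∑ u, if pos g h1 u = p then ∑ j, e u j • b u j else 0 := by
    unfold word
    have h3 : ∀ l, flip g h1 b e p l = ∑ u, ∑ j, if pos g h1 u = p ∧ b u j = l then e u j else 0 := fun l => rfl
    simp_rw [h3, sum_smul]
    rw [sum_comm]
    refine sum_congr rfl fun u _ => ?_
    rw [sum_comm]
    by_cases h4 : pos g h1 u = p
    · rw [if_pos h4]
      refine sum_congr rfl fun j _ => ?_
      rw [sum_eq_single (b u j)]
      · rw [if_pos ⟨h4, rfl⟩]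
      · intro l _ hl
        rw [if_neg fun h5 => hl h5.2.symm, zero_smul]
      · intro h5
        exact absurd (mem_univ _) h5
    · rw [if_neg h4]
      refine sum_eq_zero fun j _ => sum_eq_zero fun l _ => ?_
      rw [if_neg fun h5 => h4 h5.1, zero_smul]
  rw [h2, Finset.sum_apply]
  refine sum_congr rfl fun u _ => ?_
  split_ifs
  · rw [Finset.sum_apply]
    rfl
  · rfl

open Classical in
theorem lam_flip (g : Fin D → Equiv.Perm (Fin n)) (h1 : Fin n → Fin D × Fin m) (b : Fin n → Fin d → Word D m B)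
    (e : Fin n → Fin d → F) (v : Fin n × Fin m) :
    lam g (flip g h1 b e) v = ∑ c, ∑ u, if pos g h1 u = fine g c v then ∑ j, e u j • b u j c else 0 := by
  unfold lam
  exact sum_congr rfl fun c _ => word_flip g h1 b e _ c

theorem lam_flip_add (g : Fin D → Equiv.Perm (Fin n)) (h1 : Fin n → Fin D × Fin m)
    (b b' : Fin n → Fin d → Word D m B) (e : Fin n → Fin d → F) (v : Fin n × Fin m) :
    lam g (flip g h1 (b + b') e) v = lam g (flip g h1 b e) v + lam g (flip g h1 b' e) v := by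
  classical
  rw [lam_flip, lam_flip, lam_flip, ← sum_add_distrib]
  refine sum_congr rfl fun c _ => ?_
  rw [← sum_add_distrib]
  refine sum_congr rfl fun u _ => ?_
  split_ifs
  · rw [← sum_add_distrib]
    refine sum_congr rfl fun j _ => ?_
    rw [← smul_add]
    rfl
  · rw [add_zero]

open Classical in
/-- The change of `b` which moves the letters of the nodes with `e u ≠ 0` by `y`. -/
noncomputable def shift (h1 : Fin n → Fin D × Fin m) (e : Fin n → Fin d → F) (y : Fin n × Fin m → B) :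
    Fin n → Fin d → Word D m B :=
  fun u j c => if hu : e u ≠ 0 then
    if j = (Function.ne_iff.1 hu).choose ∧ c.1 = (h1 u).1 then (e u j)⁻¹ • y (u, (h1 u).2 - c.2) else 0 else 0

open Classical in
theorem sum_shift (h1 : Fin n → Fin D × Fin m) (e : Fin n → Fin d → F) (y : Fin n × Fin m → B) (u : Fin n)
    (c : Fin D × Fin m) : ∑ j, e u j • shift h1 e y u j c =
      if e u ≠ 0 ∧ c.1 = (h1 u).1 then y (u, (h1 u).2 - c.2) else 0 := by
  unfold shift
  by_cases hu : e u ≠ 0
  · simp_rw [dif_pos hu]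
    have h2 := (Function.ne_iff.1 hu).choose_spec
    set j0 := (Function.ne_iff.1 hu).choose with hj0
    rw [sum_eq_single j0]
    · by_cases h3 : c.1 = (h1 u).1
      · rw [if_pos ⟨rfl, h3⟩, if_pos ⟨hu, h3⟩, smul_smul, mul_inv_cancel₀ h2, one_smul]
      · rw [if_neg fun h4 => h3 h4.2, if_neg fun h4 => h3 h4.2, smul_zero]
    · intro j _ hj
      rw [if_neg fun h4 => hj h4.1, smul_zero]
    · intro h3
      exact absurd (mem_univ _) h3
  · rw [if_neg fun h4 => hu h4.1]
    refine sum_eq_zero fun j _ => ?_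
    rw [dif_neg hu, smul_zero]

open Classical in
theorem lam_shift (g : Fin D → Equiv.Perm (Fin n)) (h1 : Fin n → Fin D × Fin m) (e : Fin n → Fin d → F)
    (y : Fin n × Fin m → B) (u : Fin n) (t : Fin m) :
    lam g (flip g h1 (shift h1 e y) e) (u, t) = if e u ≠ 0 then y (u, t) else 0 := by
  rw [lam_flip]
  simp_rw [sum_shift]
  rw [sum_eq_single ((h1 u).1, (h1 u).2 - t)]
  · rw [sum_eq_single u]
    · have h2 : pos g h1 u = fine g ((h1 u).1, (h1 u).2 - t) (u, t) := by
        rw [fine_apply]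
        unfold pos
        simp
      rw [if_pos h2]
      by_cases hu : e u ≠ 0
      · rw [if_pos ⟨hu, rfl⟩, if_pos hu]
        congr 2
        exact sub_sub_cancel _ _
      · rw [if_neg fun h3 => hu h3.1, if_neg hu]
    · intro u' _ hu'
      split_ifs with h2 h3
      · exfalso
        refine hu' ?_
        rw [fine_apply] at h2
        unfold pos at h2
        have h4 : g (h1 u').1 u' = g (h1 u).1 u := (Prod.mk.inj h2).1
        have h5 : (h1 u).1 = (h1 u').1 := h3.2
        rw [h5] at h4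
        exact (g (h1 u').1).injective h4
      · rfl
      · rfl
    · intro h2
      exact absurd (mem_univ _) h2
  · intro c _ hc
    refine sum_eq_zero fun u' _ => ?_
    split_ifs with h2 h3
    · exfalso
      rw [fine_apply] at h2
      unfold pos at h2
      have h4 : g (h1 u').1 u' = g c.1 u := (Prod.mk.inj h2).1
      have h6 : (h1 u').2 = t + c.2 := (Prod.mk.inj h2).2
      rw [h3.2] at h4
      have h7 := (g (h1 u').1).injective h4
      subst h7
      refine hc (Prod.ext h3.2 ?_)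
      show c.2 = (h1 u').2 - t
      rw [h6, add_sub_cancel_left]
    · rfl
    · rfl
  · intro h2
    exact absurd (mem_univ _) h2

theorem card_eq_gap (V : Finset (B × Word D m B)) (b : B) : Nat.card {l // (b, l) ∈ V} = gap V b := by
  classical
  unfold gap
  rw [Nat.card_eq_fintype_card, Fintype.card_subtype]

/-! ## The count for fixed `e`, `e'` and a fixed set of full nodes -/

open Classical in
theorem fixed_bound (g : Fin D → Equiv.Perm (Fin n)) (h1 h2 : Fin n → Fin D × Fin m) (t0 : Fin n × Fin m → B)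
    (h T a : ℕ) (V1 V2 : Ch n D m F B → Finset (B × Word D m B)) (η : ℝ)
    (hη : η = 1 + (1 - (T : ℝ) / Fintype.card (B × Word D m B) - (h : ℝ) / Fintype.card (Word D m B)) / 2)
    (hη1 : 1 ≤ η) (x0 : Ch n D m F B) (e e' : Fin n → Fin d → F) (N : Finset (Fin n)) (hN : a ≤ N.card)
    (hNe : ∀ u ∈ N, e u ≠ 0) (hNe' : ∀ u ∈ N, e' u ≠ 0) :
    ((univ.filter (fun b : (Fin n → Fin d → Word D m B) × (Fin n → Fin d → Word D m B) =>
      Fintype.card (B × Word D m B) ≤
        (V1 (x0 + flip g h2 b.2 e') ∩ V2 (x0 + flip g h1 b.1 e)).card + T ∧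
      ∀ u ∈ N, ∀ t, gap (V1 (x0 + flip g h2 b.2 e') ∩ V2 (x0 + flip g h1 b.1 e))
        (t0 (u, t) + lam g (x0 + flip g h1 b.1 e + flip g h2 b.2 e') (u, t)) < h)).card : ℝ) ≤
      2 / η ^ (m * a) * Fintype.card ((Fin n → Fin d → Word D m B) × (Fin n → Fin d → Word D m B)) := by
  have hη0 : (0 : ℝ) < η := by linarith
  have hBW : (0 : ℝ) < Fintype.card (B × Word D m B) := Nat.cast_pos.2 (Fintype.card_pos_iff.2 ⟨0⟩)
  have hW : (0 : ℝ) < Fintype.card (Word D m B) := Nat.cast_pos.2 (Fintype.card_pos_iff.2 ⟨0⟩)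
  let ext : ({u // u ∈ N} × Fin m → B) → (Fin n × Fin m → B) :=
    fun y v => if hv : v.1 ∈ N then y (⟨v.1, hv⟩, v.2) else 0
  have hext : ∀ y (u : {u // u ∈ N}) t, ext y (u.1, t) = y (u, t) := fun y u t => dif_pos u.2
  refine average (G := (Fin n → Fin d → Word D m B) × (Fin n → Fin d → Word D m B))
    (Y := ({u // u ∈ N} × Fin m → B) × ({u // u ∈ N} × Fin m → B))
    (fun y => (shift h1 e (ext y.1), shift h2 e' (ext y.2))) _ _ ?_
  rintro ⟨b, b'⟩
  have hmu : (h : ℝ) / Fintype.card (Word D m B) ≤ 1 - (T : ℝ) / Fintype.card (B × Word D m B) := by linarith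
  have hι : Fintype.card ({u // u ∈ N} × Fin m) = m * N.card := by
    rw [Fintype.card_prod, Fintype.card_coe, Fintype.card_fin, mul_comm]
  have hY : (Fintype.card (({u // u ∈ N} × Fin m → B) × ({u // u ∈ N} × Fin m → B)) : ℝ) =
      ((Fintype.card B : ℝ) ^ Fintype.card ({u // u ∈ N} × Fin m)) ^ 2 := by
    rw [Fintype.card_prod, Fintype.card_fun]
    push_cast
    ring
  have hpow : η ^ (m * a) ≤ η ^ Fintype.card ({u // u ∈ N} × Fin m) := by
    rw [hι]
    exact pow_le_pow_right₀ hη1 (Nat.mul_le_mul_left _ hN)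
  have hv : ∀ (y : ({u // u ∈ N} × Fin m → B) × ({u // u ∈ N} × Fin m → B)) (c : {u // u ∈ N} × Fin m),
      t0 (c.1.1, c.2) + lam g (x0 + flip g h1 (b + shift h1 e (ext y.1)) e +
          flip g h2 (b' + shift h2 e' (ext y.2)) e') (c.1.1, c.2) =
        t0 (c.1.1, c.2) + lam g x0 (c.1.1, c.2) + lam g (flip g h1 b e) (c.1.1, c.2) +
          lam g (flip g h2 b' e') (c.1.1, c.2) + y.1 c + y.2 c := by
    intro y c
    rw [lam_add, lam_add, lam_flip_add, lam_flip_add, lam_shift, lam_shift, if_pos (hNe _ c.1.2),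
      if_pos (hNe' _ c.1.2), hext, hext]
    abel
  rw [hY, ← Fintype.card_subtype, ← Nat.card_eq_fintype_card]
  have key := hitting' (A := B) (ι := {u // u ∈ N} × Fin m) (Λ := Word D m B)
    (fun y2 => V1 (x0 + flip g h2 (b' + shift h2 e' (ext y2)) e'))
    (fun y1 => V2 (x0 + flip g h1 (b + shift h1 e (ext y1)) e))
    (fun c => t0 (c.1.1, c.2) + lam g x0 (c.1.1, c.2) + lam g (flip g h1 b e) (c.1.1, c.2) +
      lam g (flip g h2 b' e') (c.1.1, c.2))
    (1 - (T : ℝ) / Fintype.card (B × Word D m B)) ((h : ℝ) / Fintype.card (Word D m B)) hmu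
    (fun y => Fintype.card (B × Word D m B) ≤
        (V1 (x0 + flip g h2 (b' + shift h2 e' (ext y.2)) e') ∩
          V2 (x0 + flip g h1 (b + shift h1 e (ext y.1)) e)).card + T ∧
      ∀ u ∈ N, ∀ t, gap (V1 (x0 + flip g h2 (b' + shift h2 e' (ext y.2)) e') ∩
          V2 (x0 + flip g h1 (b + shift h1 e (ext y.1)) e))
        (t0 (u, t) + lam g (x0 + flip g h1 (b + shift h1 e (ext y.1)) e +
          flip g h2 (b' + shift h2 e' (ext y.2)) e') (u, t)) < h) ?_ ?_
  · rw [← hη] at key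
    have h5 := (le_div_iff₀ (by positivity)).2 key
    refine h5.trans ?_
    calc 2 * ((Fintype.card B : ℝ) ^ Fintype.card ({u // u ∈ N} × Fin m)) ^ 2 /
          η ^ Fintype.card ({u // u ∈ N} × Fin m)
        ≤ 2 * ((Fintype.card B : ℝ) ^ Fintype.card ({u // u ∈ N} × Fin m)) ^ 2 / η ^ (m * a) :=
          div_le_div_of_nonneg_left (by positivity) (by positivity) hpow
      _ = 2 / η ^ (m * a) * ((Fintype.card B : ℝ) ^ Fintype.card ({u // u ∈ N} × Fin m)) ^ 2 := by ring
  · rintro y ⟨hy1, -⟩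
    rw [sub_mul, one_mul, div_mul_cancel₀ _ hBW.ne']
    have h3 : (Fintype.card (B × Word D m B) : ℝ) ≤
        (V1 (x0 + flip g h2 (b' + shift h2 e' (ext y.2)) e') ∩
          V2 (x0 + flip g h1 (b + shift h1 e (ext y.1)) e)).card + T := by
      exact_mod_cast hy1
    linarith
  · rintro y ⟨-, hy2⟩ c
    rw [div_mul_cancel₀ _ hW.ne']
    have h3 := hy2 c.1.1 c.1.2 c.2
    rw [hv y c, ← card_eq_gap] at h3
    exact Nat.cast_le.2 h3.le

/-! ## The sum over everything -/

/-- The conditions on `b`, `b'` for fixed `x0`, `e`, `e'`. -/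
def Rel (g : Fin D → Equiv.Perm (Fin n)) (h1 h2 : Fin n → Fin D × Fin m) (t0 : Fin n × Fin m → B)
    (h T a : ℕ) (V1 V2 : Ch n D m F B → Finset (B × Word D m B)) (K K' : Finset (Fin n))
    (w : Ch n D m F B × (Fin n → Fin d → F) × (Fin n → Fin d → F))
    (b : (Fin n → Fin d → Word D m B) × (Fin n → Fin d → Word D m B)) : Prop :=
  open Classical in
  supp w.2.1 = K ∧ supp w.2.2 = K' ∧
    Fintype.card (B × Word D m B) ≤ (V1 (w.1 + flip g h2 b.2 w.2.2) ∩ V2 (w.1 + flip g h1 b.1 w.2.1)).card + T ∧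
    n ≤ (univ.filter (fun u => ∀ t, gap (V1 (w.1 + flip g h2 b.2 w.2.2) ∩ V2 (w.1 + flip g h1 b.1 w.2.1))
      (t0 (u, t) + lam g (w.1 + flip g h1 b.1 w.2.1 + flip g h2 b.2 w.2.2) (u, t)) < h)).card + a

theorem flip_ne_zero {g : Fin D → Equiv.Perm (Fin n)} {h1 : Fin n → Fin D × Fin m}
    {b : Fin n → Fin d → Word D m B} {e : Fin n → Fin d → F} {p : Fin n × Fin m} {l : Word D m B}
    (h : flip g h1 b e p l ≠ 0) : ∃ u j, pos g h1 u = p ∧ b u j = l ∧ e u ≠ 0 := by
  classical
  by_contra h2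
  push Not at h2
  refine h ?_
  show ∑ u, ∑ j, (if pos g h1 u = p ∧ b u j = l then e u j else 0) = 0
  refine sum_eq_zero fun u _ => sum_eq_zero fun j _ => ?_
  split_ifs with h3
  · rw [h2 u j h3.1 h3.2]
    rfl
  · rfl

theorem inK_eq {n d : ℕ} {F W X : Type} [AddCommGroup F] [AddCommGroup X] [Fintype F] [Fintype W]
    {D : (Fin n → Fin d → W) → ((Fin n → Fin d → F) →+ X)} {U : X → Fin n → Finset W}
    {E : Finset X} {K : Finset (Fin n)} {x : X} {S : Finset ((Fin n → Fin d → W) × (Fin n → Fin d → F))}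
    (hS : ∀ z, z ∈ S ↔ supp z.2 = K ∧ x - D z.1 z.2 ∈ E ∧ Unread U (x - D z.1 z.2) K z.1) :
    inK D U E K x = S.card := by
  unfold inK
  congr 1
  ext z
  simp only [mem_filter, mem_univ, true_and, hS]

open Classical in
theorem sum_le_rel (g : Fin D → Equiv.Perm (Fin n)) (h1 h2 : Fin n → Fin D × Fin m) (cell t0 : Fin n × Fin m → B)
    (h T a : ℕ) (E : Finset (Ch n D m F B)) (V1 V2 : Ch n D m F B → Finset (B × Word D m B))
    (hE : Closed g cell t0 h T a E V1 V2) (K K' : Finset (Fin n)) :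
    ∑ x ∈ E, inK (flip (F := F) (d := d) g h1) (fun x u => left cell (V1 x) (pos g h1 u)) E K x *
        inK (flip (F := F) (d := d) g h2) (fun x u => left cell (V2 x) (pos g h2 u)) E K' x ≤
      ∑ w, (univ.filter (Rel (d := d) g h1 h2 t0 h T a V1 V2 K K' w)).card := by
  let S1 : Ch n D m F B → Finset ((Fin n → Fin d → Word D m B) × (Fin n → Fin d → F)) := fun x =>
    univ.filter (fun z => supp z.2 = K ∧ x - flip g h1 z.1 z.2 ∈ E ∧
      Unread (fun x u => left cell (V1 x) (pos g h1 u)) (x - flip g h1 z.1 z.2) K z.1)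
  let S2 : Ch n D m F B → Finset ((Fin n → Fin d → Word D m B) × (Fin n → Fin d → F)) := fun x =>
    univ.filter (fun z => supp z.2 = K' ∧ x - flip g h2 z.1 z.2 ∈ E ∧
      Unread (fun x u => left cell (V2 x) (pos g h2 u)) (x - flip g h2 z.1 z.2) K' z.1)
  have q1 : ∀ x, inK (flip (F := F) (d := d) g h1) (fun x u => left cell (V1 x) (pos g h1 u)) E K x =
      (S1 x).card := fun x => inK_eq fun z => by
    rw [mem_filter]
    exact and_iff_right (mem_univ _)
  have q2 : ∀ x, inK (flip (F := F) (d := d) g h2) (fun x u => left cell (V2 x) (pos g h2 u)) E K' x =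
      (S2 x).card := fun x => inK_eq fun z => by
    rw [mem_filter]
    exact and_iff_right (mem_univ _)
  have e1 : ∑ x ∈ E, inK (flip (F := F) (d := d) g h1) (fun x u => left cell (V1 x) (pos g h1 u)) E K x *
        inK (flip (F := F) (d := d) g h2) (fun x u => left cell (V2 x) (pos g h2 u)) E K' x =
      (E.sigma fun x => S1 x ×ˢ S2 x).card := by
    rw [card_sigma]
    refine sum_congr rfl fun x _ => ?_
    rw [card_product, q1, q2]
  have e2 : ∑ w, (univ.filter (Rel (F := F) (d := d) g h1 h2 t0 h T a V1 V2 K K' w)).card =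
      (univ.sigma fun w => univ.filter (Rel (F := F) (d := d) g h1 h2 t0 h T a V1 V2 K K' w)).card := by
    rw [card_sigma]
  rw [e1, e2]
  refine card_le_card_of_injOn (fun z => ⟨(z.1 - flip g h1 z.2.1.1 z.2.1.2 - flip g h2 z.2.2.1 z.2.2.2,
    z.2.1.2, z.2.2.2), (z.2.1.1, z.2.2.1)⟩) ?_ ?_
  · rintro ⟨x, ⟨b, e⟩, ⟨b', e'⟩⟩ hz
    rw [mem_coe, mem_sigma, mem_product, mem_filter, mem_filter] at hz
    obtain ⟨hx, ⟨-, h3, h4, h5⟩, ⟨-, h6, h7, h8⟩⟩ := hz
    rw [mem_coe, mem_sigma, mem_filter]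
    refine ⟨mem_univ _, mem_univ _, h3, h6, ?_⟩
    have a1 : x - flip g h1 b e - flip g h2 b' e' + flip g h2 b' e' = x - flip g h1 b e := sub_add_cancel _ _
    have a2 : x - flip g h1 b e - flip g h2 b' e' + flip g h1 b e = x - flip g h2 b' e' := by
      rw [sub_right_comm, sub_add_cancel]
    have a3 : x - flip g h1 b e - flip g h2 b' e' + flip g h1 b e + flip g h2 b' e' = x := by
      rw [a2, sub_add_cancel]
    show _ ≤ (V1 (x - flip g h1 b e - flip g h2 b' e' + flip g h2 b' e') ∩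
      V2 (x - flip g h1 b e - flip g h2 b' e' + flip g h1 b e)).card + T ∧
      n ≤ (univ.filter (fun u => ∀ t, gap (V1 (x - flip g h1 b e - flip g h2 b' e' + flip g h2 b' e') ∩
        V2 (x - flip g h1 b e - flip g h2 b' e' + flip g h1 b e))
      (t0 (u, t) + lam g (x - flip g h1 b e - flip g h2 b' e' + flip g h1 b e + flip g h2 b' e') (u, t)) < h)).card + a
    rw [a3, a1, a2]
    refine hE x hx _ h4 _ h7 ?_ ?_
    · intro p l hpl
      have h9 : flip g h1 b e p l ≠ 0 := by
        intro h10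
        refine hpl ?_
        rw [Pi.sub_apply, Pi.sub_apply, h10, sub_zero]
      obtain ⟨u, j, h10, h11, h12⟩ := flip_ne_zero h9
      have h13 : u ∈ K := by
        rw [← h3]
        exact mem_filter.2 ⟨mem_univ _, h12⟩
      have h14 := h5 u h13 j
      rw [← h10, ← h11]
      exact h14
    · intro p l hpl
      have h9 : flip g h2 b' e' p l ≠ 0 := by
        intro h10
        refine hpl ?_
        rw [Pi.sub_apply, Pi.sub_apply, h10, sub_zero]
      obtain ⟨u, j, h10, h11, h12⟩ := flip_ne_zero h9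
      have h13 : u ∈ K' := by
        rw [← h6]
        exact mem_filter.2 ⟨mem_univ _, h12⟩
      have h14 := h8 u h13 j
      rw [← h10, ← h11]
      exact h14
  · rintro ⟨x, ⟨b, e⟩, ⟨b', e'⟩⟩ - ⟨y, ⟨c, f⟩, ⟨c', f'⟩⟩ - hzz
    simp only [Sigma.mk.injEq, Prod.mk.injEq, heq_eq_eq] at hzz
    obtain ⟨⟨h3, h4, h5⟩, h6, h7⟩ := hzz
    subst h4 h5 h6 h7
    have h8 : x = y := by
      rw [sub_left_inj, sub_left_inj] at h3
      exact h3
    rw [h8]

open Classical in
theorem rel_bound (g : Fin D → Equiv.Perm (Fin n)) (h1 h2 : Fin n → Fin D × Fin m) (t0 : Fin n × Fin m → B)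
    (h T a : ℕ) (V1 V2 : Ch n D m F B → Finset (B × Word D m B))
    (η : ℝ)
    (hη : η = 1 + (1 - (T : ℝ) / Fintype.card (B × Word D m B) - (h : ℝ) / Fintype.card (Word D m B)) / 2)
    (hη1 : 1 ≤ η) (K K' : Finset (Fin n)) (hK : 2 * a ≤ (K ∩ K').card)
    (w : Ch n D m F B × (Fin n → Fin d → F) × (Fin n → Fin d → F)) :
    ((univ.filter (Rel (d := d) g h1 h2 t0 h T a V1 V2 K K' w)).card : ℝ) ≤
      2 ^ n * (2 / η ^ (m * a) *
        Fintype.card ((Fin n → Fin d → Word D m B) × (Fin n → Fin d → Word D m B))) := by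
  have hη0 : (0 : ℝ) < η := by linarith
  obtain ⟨x0, e, e'⟩ := w
  let 𝒩 : Finset (Finset (Fin n)) := univ.filter (fun N => a ≤ N.card ∧ N ⊆ supp e ∩ supp e')
  let A : Finset (Fin n) → Finset ((Fin n → Fin d → Word D m B) × (Fin n → Fin d → Word D m B)) := fun N =>
    univ.filter (fun b : (Fin n → Fin d → Word D m B) × (Fin n → Fin d → Word D m B) =>
      Fintype.card (B × Word D m B) ≤
        (V1 (x0 + flip g h2 b.2 e') ∩ V2 (x0 + flip g h1 b.1 e)).card + T ∧
      ∀ u ∈ N, ∀ t, gap (V1 (x0 + flip g h2 b.2 e') ∩ V2 (x0 + flip g h1 b.1 e))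
        (t0 (u, t) + lam g (x0 + flip g h1 b.1 e + flip g h2 b.2 e') (u, t)) < h)
  have hsub : univ.filter (Rel (d := d) g h1 h2 t0 h T a V1 V2 K K' (x0, e, e')) ⊆ 𝒩.biUnion A := by
    intro b hb
    obtain ⟨-, h3, h4, h5, h6⟩ := mem_filter.1 hb
    have h3' : supp e = K := h3
    have h4' : supp e' = K' := h4
    rw [mem_biUnion]
    refine ⟨(K ∩ K') ∩ univ.filter (fun u => ∀ t, gap (V1 (x0 + flip g h2 b.2 e') ∩ V2 (x0 + flip g h1 b.1 e))
        (t0 (u, t) + lam g (x0 + flip g h1 b.1 e + flip g h2 b.2 e') (u, t)) < h), ?_, ?_⟩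
    · refine mem_filter.2 ⟨mem_univ _, ?_, ?_⟩
      · have h7 := card_union_add_card_inter (K ∩ K') (univ.filter (fun u => ∀ t,
          gap (V1 (x0 + flip g h2 b.2 e') ∩ V2 (x0 + flip g h1 b.1 e))
          (t0 (u, t) + lam g (x0 + flip g h1 b.1 e + flip g h2 b.2 e') (u, t)) < h))
        have h8 := card_le_univ ((K ∩ K') ∪ (univ.filter (fun u => ∀ t,
          gap (V1 (x0 + flip g h2 b.2 e') ∩ V2 (x0 + flip g h1 b.1 e))
          (t0 (u, t) + lam g (x0 + flip g h1 b.1 e + flip g h2 b.2 e') (u, t)) < h)))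
        rw [Fintype.card_fin] at h8
        have h9 : n ≤ (univ.filter (fun u => ∀ t, gap (V1 (x0 + flip g h2 b.2 e') ∩ V2 (x0 + flip g h1 b.1 e))
          (t0 (u, t) + lam g (x0 + flip g h1 b.1 e + flip g h2 b.2 e') (u, t)) < h)).card + a := h6
        omega
      · rw [h3', h4']
        exact inter_subset_left
    · refine mem_filter.2 ⟨mem_univ _, h5, fun u hu => ?_⟩
      exact (mem_filter.1 (mem_inter.1 hu).2).2
  have hA : ∀ N ∈ 𝒩, ((A N).card : ℝ) ≤ 2 / η ^ (m * a) *
      Fintype.card ((Fin n → Fin d → Word D m B) × (Fin n → Fin d → Word D m B)) := by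
    intro N hN
    obtain ⟨-, hN1, hN2⟩ := mem_filter.1 hN
    exact fixed_bound g h1 h2 t0 h T a V1 V2 η hη hη1 x0 e e' N hN1
      (fun u hu => (mem_filter.1 (mem_inter.1 (hN2 hu)).1).2)
      (fun u hu => (mem_filter.1 (mem_inter.1 (hN2 hu)).2).2)
  calc ((univ.filter (Rel (d := d) g h1 h2 t0 h T a V1 V2 K K' (x0, e, e'))).card : ℝ)
      ≤ ((𝒩.biUnion A).card : ℝ) := Nat.cast_le.2 (card_le_card hsub)
    _ ≤ ((∑ N ∈ 𝒩, (A N).card : ℕ) : ℝ) := Nat.cast_le.2 card_biUnion_le
    _ = ∑ N ∈ 𝒩, ((A N).card : ℝ) := Nat.cast_sum _ _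
    _ ≤ ∑ N ∈ 𝒩, 2 / η ^ (m * a) *
      Fintype.card ((Fin n → Fin d → Word D m B) × (Fin n → Fin d → Word D m B)) := sum_le_sum hA
    _ = 𝒩.card * (2 / η ^ (m * a) *
      Fintype.card ((Fin n → Fin d → Word D m B) × (Fin n → Fin d → Word D m B))) := by
        rw [sum_const, nsmul_eq_mul]
    _ ≤ 2 ^ n * (2 / η ^ (m * a) *
      Fintype.card ((Fin n → Fin d → Word D m B) × (Fin n → Fin d → Word D m B))) := by
        refine mul_le_mul_of_nonneg_right ?_ (by positivity)
        have h7 : 𝒩.card ≤ 2 ^ n := by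
          have h8 := card_le_univ 𝒩
          rwa [Fintype.card_finset, Fintype.card_fin] at h8
        exact_mod_cast h7

/-- The statement without the two superfluous hypotheses. -/
theorem pairs_bound' (g : Fin D → Equiv.Perm (Fin n)) (h1 h2 : Fin n → Fin D × Fin m) (cell t0 : Fin n × Fin m → B)
    (h T a : ℕ) (E : Finset (Ch n D m F B)) (V1 V2 : Ch n D m F B → Finset (B × Word D m B))
    (hE : Closed g cell t0 h T a E V1 V2) (η : ℝ)
    (hη : η = 1 + (1 - (T : ℝ) / Fintype.card (B × Word D m B) - (h : ℝ) / Fintype.card (Word D m B)) / 2)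
    (hη1 : 1 ≤ η) (K K' : Finset (Fin n)) (hK : 2 * a ≤ (K ∩ K').card) :
    ∑ x ∈ E, (inK (flip (F := F) (d := d) g h1) (fun x u => left cell (V1 x) (pos g h1 u)) E K x : ℝ) *
        inK (flip (F := F) (d := d) g h2) (fun x u => left cell (V2 x) (pos g h2 u)) E K' x ≤
      (Fintype.card F : ℝ) ^ (2 * d * n) * 2 ^ (n + 1) / η ^ (m * a) * Nat.card (Ch n D m F B) *
        (Nat.card (Fin n → Fin d → Word D m B) : ℝ) ^ 2 := by
  classical
  have hη0 : (0 : ℝ) < η := by linarith
  have h3 := sum_le_rel (d := d) g h1 h2 cell t0 h T a E V1 V2 hE K K'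
  have h4 : (∑ x ∈ E, (inK (flip (F := F) (d := d) g h1) (fun x u => left cell (V1 x) (pos g h1 u)) E K x : ℝ) *
        inK (flip (F := F) (d := d) g h2) (fun x u => left cell (V2 x) (pos g h2 u)) E K' x) ≤
      ∑ w, ((univ.filter (Rel (F := F) (d := d) g h1 h2 t0 h T a V1 V2 K K' w)).card : ℝ) := by
    have h5 := (Nat.cast_le (α := ℝ)).2 h3
    rw [Nat.cast_sum, Nat.cast_sum] at h5
    refine le_trans (le_of_eq ?_) h5
    refine sum_congr rfl fun x _ => ?_
    rw [Nat.cast_mul]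
  refine h4.trans ((sum_le_sum fun w _ => rel_bound g h1 h2 t0 h T a V1 V2 η hη hη1 K K' hK w).trans ?_)
  rw [sum_const, nsmul_eq_mul, card_univ, Fintype.card_prod, Fintype.card_prod, Fintype.card_prod,
    Nat.card_eq_fintype_card, Nat.card_eq_fintype_card]
  have h6 : Fintype.card (Fin n → Fin d → F) = Fintype.card F ^ (d * n) := by
    rw [Fintype.card_fun, Fintype.card_fun, Fintype.card_fin, Fintype.card_fin, ← pow_mul]
  rw [h6]
  refine le_of_eq ?_
  push_cast
  ring

theorem pairs_bound (g : Fin D → Equiv.Perm (Fin n)) (h1 h2 : Fin n → Fin D × Fin m) (cell t0 : Fin n × Fin m → B)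
    (h T a : ℕ) (E : Finset (Ch n D m F B)) (V1 V2 : Ch n D m F B → Finset (B × Word D m B))
    (hE : Closed g cell t0 h T a E V1 V2) (_hh : h ≤ Fintype.card (Word D m B))
    (_hT : T ≤ Fintype.card (B × Word D m B)) (η : ℝ)
    (hη : η = 1 + (1 - (T : ℝ) / Fintype.card (B × Word D m B) - (h : ℝ) / Fintype.card (Word D m B)) / 2)
    (hη1 : 1 ≤ η) (K K' : Finset (Fin n)) (hK : 2 * a ≤ (K ∩ K').card) :
    ∑ x ∈ E, (inK (flip (F := F) (d := d) g h1) (fun x u => left cell (V1 x) (pos g h1 u)) E K x : ℝ) *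
        inK (flip (F := F) (d := d) g h2) (fun x u => left cell (V2 x) (pos g h2 u)) E K' x ≤
      (Fintype.card F : ℝ) ^ (2 * d * n) * 2 ^ (n + 1) / η ^ (m * a) * Nat.card (Ch n D m F B) *
        (Nat.card (Fin n → Fin d → Word D m B) : ℝ) ^ 2 :=
  pairs_bound' g h1 h2 cell t0 h T a E V1 V2 hE η hη hη1 K K' hK

end net

end Pool.Agent.Helper74.NQ
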