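import Pool.Agent.Helper74.NE.Defs

/-!
# Changing the symbols of the blocks of one row

The block of a cell is a function `y : W → F`, where `W = Dd → B` is the set of the words; its word is the sum of
`y l • l`.
-/

set_option autoImplicit false
set_option linter.unusedSectionVars false

namespace Pool.Agent.Helper74.NQ

open Pool.Agent.Helper19.NF Pool.Agent.Helper74.NW Pool.Agent.Helper74.NE Finset

section net

variable {U Dd F B : Type} [Fintype Dd] [Field F] [AddCommGroup B] [Module F B] [Fintype (Dd → B)]

/-- The word of a block. -/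
def wordOf (y : (Dd → B) → F) : Dd → B := ∑ l, y l • l

theorem wordOf_add (y z : (Dd → B) → F) : wordOf (y + z) = wordOf y + wordOf z := by
  unfold wordOf
  rw [← sum_add_distrib]
  exact sum_congr rfl fun l _ => add_smul _ _ _

theorem wordOf_zero : wordOf (0 : (Dd → B) → F) = 0 := by
  unfold wordOf
  exact sum_eq_zero fun l _ => zero_smul _ _

theorem wordOf_sum {α : Type*} (s : Finset α) (y : α → (Dd → B) → F) :
    wordOf (∑ a ∈ s, y a) = ∑ a ∈ s, wordOf (y a) := by
  classical
  induction s using Finset.induction_on with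
  | empty => simp [wordOf_zero]
  | insert a s ha ih => rw [sum_insert ha, sum_insert ha, wordOf_add, ih]

/-- The instance of the network. -/
def toI (J : B → (Dd → B) → F) : B → Dd → B := fun b => wordOf (J b)

variable [Fintype U]

open Classical in
/-- The change `x c l` of the symbol `l` of the block of the cell `v c`. -/
noncomputable def mv (v : U → B) (x : U → (Dd → B) → F) : B → (Dd → B) → F :=
  fun b l => ∑ c, if b = v c then x c l else 0

theorem mv_apply {v : U → B} (hv : Function.Injective v) (x : U → (Dd → B) → F) (c : U) :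
    mv v x (v c) = x c := by
  classical
  funext l
  unfold mv
  rw [sum_eq_single c]
  · rw [if_pos rfl]
  · intro c' _ h
    rw [if_neg fun h' => h (hv h').symm]
  · intro h
    exact absurd (mem_univ _) h

theorem mv_of_ne {v : U → B} (x : U → (Dd → B) → F) {b : B} (hb : ∀ c, b ≠ v c) : mv v x b = 0 := by
  classical
  funext l
  unfold mv
  exact sum_eq_zero fun c _ => if_neg (hb c)

theorem mv_add (v : U → B) (x y : U → (Dd → B) → F) : mv v (x + y) = mv v x + mv v y := by
  classical
  funext b l
  rw [Pi.add_apply, Pi.add_apply]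
  unfold mv
  rw [← sum_add_distrib]
  refine sum_congr rfl fun c _ => ?_
  split_ifs
  · rfl
  · rw [add_zero]

theorem mv_zero (v : U → B) : mv v (0 : U → (Dd → B) → F) = 0 := by
  classical
  funext b l
  unfold mv
  refine sum_eq_zero fun c _ => ?_
  split_ifs <;> rfl

theorem toI_add (J : B → (Dd → B) → F) (v : U → B) (x : U → (Dd → B) → F) :
    toI (J + mv v x) = toI J + fun b => wordOf (mv v x b) := by
  funext b
  unfold toI
  rw [Pi.add_apply, wordOf_add, Pi.add_apply]

theorem moved (v : U → B) (x : U → (Dd → B) → F) (b : B) (hb : (fun b => wordOf (mv v x b)) b ≠ 0) :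
    ∃ c, b = v c := by
  by_contra h
  push Not at h
  refine hb ?_
  show wordOf (mv v x b) = 0
  rw [mv_of_ne x h, wordOf_zero]

variable {g : Dd → Equiv.Perm U} {x0 : U → B} {i : ℕ} {J : B → (Dd → B) → F}

theorem CF.inj (h : CF g x0 i (toI J)) : Function.Injective (val g x0 (toI J) i) :=
  fun c c' e => (h i i c c' le_rfl le_rfl e).2

theorem val_mv (h : CF g x0 i (toI J)) (x : U → (Dd → B) → F) {j : ℕ} (hj : j ≤ i) (u : U) :
    val g x0 (toI (J + mv (val g x0 (toI J) i) x)) j u = val g x0 (toI J) j u := by
  rw [toI_add]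
  exact val_add h _ (moved _ x) j hj u

theorem CF_mv (h : CF g x0 i (toI J)) (x : U → (Dd → B) → F) :
    CF g x0 i (toI (J + mv (val g x0 (toI J) i) x)) := by
  rw [toI_add]
  exact CF_add h _ (moved _ x)

theorem val_mv_succ (h : CF g x0 i (toI J)) (x : U → (Dd → B) → F) (u : U) :
    val g x0 (toI (J + mv (val g x0 (toI J) i) x)) (i + 1) u =
      val g x0 (toI J) (i + 1) u + ∑ s, wordOf (x (g s u)) s := by
  rw [toI_add, val_add_succ h _ (moved _ x)]
  congr 1
  refine sum_congr rfl fun s _ => ?_
  show wordOf (mv (val g x0 (toI J) i) x (val g x0 (toI J) i (g s u))) s = _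
  rw [mv_apply (CF.inj h)]

end net

/-! ## The two directions -/

section dir

variable {U Dd F B : Type} [Field F] [AddCommGroup B] [Module F B] {n d : ℕ}

open Classical in
/-- The change of the symbols: `e u j` is added to the symbol `b u j` of the cell `h u`, for all `u` and `j`. -/
noncomputable def dir (h : Fin n → U) (b : Fin n → Fin d → Dd → B) :
    (Fin n → Fin d → F) →+ (U → (Dd → B) → F) where
  toFun e := fun c l => ∑ u, ∑ j, if h u = c ∧ b u j = l then e u j else 0
  map_zero' := by
    funext c l
    refine sum_eq_zero fun u _ => sum_eq_zero fun j _ => ?_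
    split_ifs <;> rfl
  map_add' e e' := by
    funext c l
    rw [Pi.add_apply, Pi.add_apply, ← sum_add_distrib]
    refine sum_congr rfl fun u _ => ?_
    rw [← sum_add_distrib]
    refine sum_congr rfl fun j _ => ?_
    split_ifs
    · rfl
    · rw [add_zero]

open Classical in
theorem dir_apply (h : Fin n → U) (b : Fin n → Fin d → Dd → B) (e : Fin n → Fin d → F) (c : U) (l : Dd → B) :
    dir h b e c l = ∑ u, ∑ j, if h u = c ∧ b u j = l then e u j else 0 := rfl

/-- Outside the places only zeros. -/
theorem dir_eq_zero {h : Fin n → U} {b : Fin n → Fin d → Dd → B} {e : Fin n → Fin d → F} {c : U} {l : Dd → B}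
    (hl : ∀ u, e u ≠ 0 → h u = c → ∀ j, b u j ≠ l) : dir h b e c l = 0 := by
  classical
  rw [dir_apply]
  refine sum_eq_zero fun u _ => sum_eq_zero fun j _ => ?_
  split_ifs with h1
  · by_contra h2
    refine hl u (fun h3 => h2 ?_) h1.1 j h1.2
    rw [h3]
    rfl
  · rfl

open Classical in
theorem wordOf_dir [Fintype (Dd → B)] (h : Fin n → U) (b : Fin n → Fin d → Dd → B) (e : Fin n → Fin d → F)
    (c : U) : wordOf (dir h b e c) = ∑ u, if h u = c then ∑ j, e u j • b u j else 0 := by
  unfold wordOf
  simp_rw [dir_apply, sum_smul]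
  rw [sum_comm]
  refine sum_congr rfl fun u _ => ?_
  rw [sum_comm]
  by_cases h1 : h u = c
  · rw [if_pos h1]
    refine sum_congr rfl fun j _ => ?_
    rw [sum_eq_single (b u j)]
    · rw [if_pos ⟨h1, rfl⟩]
    · intro l _ hl
      rw [if_neg fun h2 => hl h2.2.symm, zero_smul]
    · intro h2
      exact absurd (mem_univ _) h2
  · rw [if_neg h1]
    refine sum_eq_zero fun j _ => sum_eq_zero fun l _ => ?_
    rw [if_neg fun h2 => h1 h2.1, zero_smul]

end dir

end Pool.Agent.Helper74.NQ
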